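import Pool.Agent.Helper72.ZC.Line
import Pool.Agent.Helper91.ZC.Lines

/-! # The Chow group of zero-cycles is generated by the class of a rational point -/

set_option autoImplicit false

open MvPolynomial

namespace ZC

universe u

variable {K : Type u} [Field K] {n r : ℕ}

theorem coordField_finite (y : Fin (n + 1) → AlgebraicClosure K) :
    FiniteDimensional K (coordField K y) := by
  rw [coordField]
  have hfin : Finite {z | ∃ i j, z = y i / y j} := by
    have : {z | ∃ i j, z = y i / y j} =
        Set.range (fun p : Fin (n + 1) × Fin (n + 1) => y p.1 / y p.2) := by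
      ext z
      constructor
      · rintro ⟨i, j, rfl⟩
        exact ⟨(i, j), rfl⟩
      · rintro ⟨⟨i, j⟩, rfl⟩
        exact ⟨i, j, rfl⟩
    rw [this]
    exact Set.finite_range _
  exact IntermediateField.finiteDimensional_adjoin fun z _ => Algebra.IsIntegral.isIntegral z

/-- A closed point is the push-forward of the spectrum of its residue field. -/
theorem single_eq_ptCycle (X : ProjVar K n r) (P : ClosedPoint X) :
    ∃ (L : Type u) (_ : Field L) (_ : Algebra K L) (_ : FiniteDimensional K L)
      (x : Fin (n + 1) → L) (hx : X.IsPt x), Finsupp.single P 1 = ptCycle X x hx := by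
  induction P using Quotient.inductionOn with
  | h y =>
    obtain ⟨y, hy⟩ := y
    obtain ⟨j, hj⟩ : ∃ j, y j ≠ 0 := by
      by_contra hcon
      push Not at hcon
      exact hy.1 (funext hcon)
    let L := coordField K y
    have hfd : FiniteDimensional K L := coordField_finite y
    have hmem : ∀ i, y i / y j ∈ coordField K y := fun i =>
      IntermediateField.subset_adjoin K _ ⟨i, j, rfl⟩
    let x : Fin (n + 1) → L := fun i => ⟨y i / y j, hmem i⟩
    have hx : X.IsPt x := by
      refine ⟨fun h => ?_, fun i => ?_⟩
      · have h1 := congrArg (fun f => ((f j : L) : AlgebraicClosure K)) h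
        change y j / y j = 0 at h1
        rw [div_self hj] at h1
        exact one_ne_zero h1
      · apply (algebraMap L (AlgebraicClosure K)).injective
        rw [map_zero, ← MvPolynomial.aeval_algebraMap_apply]
        have : (fun i => algebraMap L (AlgebraicClosure K) (x i)) = fun i => (y j)⁻¹ * y i := by
          funext i
          change y i / y j = _
          rw [div_eq_inv_mul]
        change aeval (fun i => algebraMap L (AlgebraicClosure K) (x i)) (X.form i) = 0
        rw [this, aeval_scale (X.hom i), hy.2 i, mul_zero]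
    refine ⟨L, inferInstance, inferInstance, hfd, x, hx, ?_⟩
    have htop : coordField K x = ⊤ := by
      apply IntermediateField.map_injective L.val
      rw [← AlgHom.fieldRange_eq_map, IntermediateField.fieldRange_val]
      change IntermediateField.map L.val (IntermediateField.adjoin K _) = coordField K y
      rw [IntermediateField.adjoin_map, coordField]
      congr 1
      ext z
      constructor
      · rintro ⟨_, ⟨a, b, rfl⟩, rfl⟩
        refine ⟨a, b, ?_⟩
        change (y a / y j) / (y b / y j) = _
        rw [div_div_div_cancel_right₀ hj]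
      · rintro ⟨a, b, rfl⟩
        refine ⟨x a / x b, ⟨a, b, rfl⟩, ?_⟩
        change (y a / y j) / (y b / y j) = _
        rw [div_div_div_cancel_right₀ hj]
    have halg : Algebra.IsAlgebraic K L := inferInstance
    rw [ptCycle, dif_pos halg, htop, IntermediateField.finrank_top,
      closedPt_eq_mk X hx L.val ⟨y, hy⟩ (y j) hj (fun i => ?_)]
    · rfl
    · change y i = y j * (y i / y j)
      rw [mul_div_cancel₀ _ hj]

/-- The rational point `x`, seen over a finite extension `L` of `K`. -/
theorem ptCycle_algebraMap (X : ProjVar K n r) {L : Type u} [Field L] [Algebra K L]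
    [FiniteDimensional K L] (x : Fin (n + 1) → K) (hx : X.IsPt x)
    (hx' : X.IsPt fun i => algebraMap K L (x i)) :
    ∃ m : ℤ, ptCycle X (fun i => algebraMap K L (x i)) hx' =
      m • Finsupp.single (closedPt X x hx) 1 := by
  have halg : Algebra.IsAlgebraic K L := inferInstance
  refine ⟨(Module.finrank (coordField K fun i => algebraMap K L (x i)) L : ℤ), ?_⟩
  rw [ptCycle, dif_pos halg, Finsupp.smul_single, smul_eq_mul, mul_one]
  congr 1
  refine closedPt_eq_mk X hx' (IsAlgClosed.lift : L →ₐ[K] AlgebraicClosure K) _ 1 one_ne_zero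
    (fun i => ?_)
  rw [one_mul, AlgHom.commutes]
  exact AlgHom.commutes _ _

theorem isPt_algebraMap (X : ProjVar K n r) {L : Type u} [Field L] [Algebra K L]
    (x : Fin (n + 1) → K) (hx : X.IsPt x) : X.IsPt fun i => algebraMap K L (x i) := by
  refine ⟨fun h => hx.1 (funext fun i => ?_), fun i => ?_⟩
  · have h1 := congrFun h i
    simpa using h1
  · have h1 := hx.2 i
    have h2 : aeval (fun i => algebraMap K L (x i)) (X.form i) =
        algebraMap K L (aeval x (X.form i)) := by
      rw [← MvPolynomial.aeval_algebraMap_apply]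
      rfl
    rw [h2, h1, map_zero]

theorem CH0.mk_eq_zero (X : ProjVar K n r) {c : ClosedPoint X →₀ ℤ} (h : c ∈ ratEquiv X) :
    CH0.mk X c = 0 :=
  (QuotientAddGroup.eq_zero_iff c).2 h

theorem CH0.mk_surjective (X : ProjVar K n r) : Function.Surjective (CH0.mk X) :=
  QuotientAddGroup.mk'_surjective (ratEquiv X)

/-- If all finite extensions of `K` are `C2`, the Chow group of zero-cycles is generated by the
class of any rational point. -/
theorem CH0_gen (hK : ∀ (L : Type u) [Field L] [Algebra K L], FiniteDimensional K L → C2 L)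
    (X : ProjVar K n r) (hn : ∑ i, X.d i * (2 * X.d i ^ 2 + 1) ≤ 3 * n)
    (x : Fin (n + 1) → K) (hx : X.IsPt x) (c : CH0 X) : ∃ m : ℤ, c = m • cls X x hx := by
  have key : ∀ P : ClosedPoint X, ∃ m : ℤ, CH0.mk X (Finsupp.single P 1) = m • cls X x hx := by
    intro P
    obtain ⟨L, _, _, hfd, y, hy, hP⟩ := single_eq_ptCycle X P
    have hx' := isPt_algebraMap X (L := L) x hx
    obtain ⟨z, hz, h1, h2⟩ := exists_lines (hK L hfd) X hn y
      (fun i => algebraMap K L (x i)) hy hx'
    have e1 := CH0.mk_eq_zero X (line_equiv X y z hy hz h1)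
    have e2 := CH0.mk_eq_zero X (line_equiv X (fun i => algebraMap K L (x i)) z hx' hz h2)
    rw [map_sub, sub_eq_zero] at e1 e2
    obtain ⟨m, hm⟩ := ptCycle_algebraMap X (L := L) x hx hx'
    refine ⟨m, ?_⟩
    rw [hP, e1, ← e2, hm, map_zsmul]
    rfl
  obtain ⟨c, rfl⟩ := CH0.mk_surjective X c
  induction c using Finsupp.induction_linear with
  | zero => exact ⟨0, by rw [zero_zsmul, map_zero]⟩
  | add f g hf hg =>
    obtain ⟨a, ha⟩ := hf
    obtain ⟨b, hb⟩ := hg
    exact ⟨a + b, by rw [add_zsmul, map_add, ha, hb]⟩
  | single P a =>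
    obtain ⟨m, hm⟩ := key P
    refine ⟨a * m, ?_⟩
    have : Finsupp.single P a = a • Finsupp.single P (1 : ℤ) := by
      rw [Finsupp.smul_single, smul_eq_mul, mul_one]
    rw [this, map_zsmul, hm, ← mul_zsmul', mul_comm]

end ZC
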