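import Pool.Agent.Helper72.ZC.LinePlaces

/-! # Rational equivalence along a line -/

set_option autoImplicit false

open MvPolynomial

namespace ZC

universe u

section congr

variable {K : Type u} [Field K] {n r : ℕ}

theorem exists_autom {L : Type*} [Field L] [Algebra K L] (f g : L →ₐ[K] AlgebraicClosure K) :
    ∃ s : AlgebraicClosure K ≃ₐ[K] AlgebraicClosure K, ∀ a, s (f a) = g a := by
  let e1 : L ≃ₐ[K] f.fieldRange := AlgEquiv.ofInjectiveField f
  let e2 : L ≃ₐ[K] g.fieldRange := AlgEquiv.ofInjectiveField g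
  refine ⟨(e1.symm.trans e2).liftNormal (AlgebraicClosure K), fun a => ?_⟩
  have h := (e1.symm.trans e2).liftNormal_commutes (AlgebraicClosure K) (e1 a)
  have h1 : algebraMap f.fieldRange (AlgebraicClosure K) (e1 a) = f a := rfl
  have h2 : algebraMap g.fieldRange (AlgebraicClosure K) ((e1.symm.trans e2) (e1 a)) = g a := by
    rw [AlgEquiv.trans_apply, AlgEquiv.symm_apply_apply]
    rfl
  rw [← h1, h, h2]

theorem closedPt_eq_mk (X : ProjVar K n r) {L : Type*} [Field L] [Algebra K L]
    [Algebra.IsAlgebraic K L] {x : Fin (n + 1) → L} (hx : X.IsPt x)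
    (f : L →ₐ[K] AlgebraicClosure K) (y : GPt X) (c : AlgebraicClosure K) (hc : c ≠ 0)
    (h : ∀ i, y.1 i = c * f (x i)) : closedPt X x hx = Quotient.mk (gSetoid X) y := by
  obtain ⟨s, hs⟩ := exists_autom (IsAlgClosed.lift : L →ₐ[K] AlgebraicClosure K) f
  refine Quotient.sound ⟨s, c, hc, fun i => ?_⟩
  rw [h i, hs]

theorem coordField_map {L L' : Type*} [Field L] [Algebra K L] [Field L'] [Algebra K L']
    (σ : L ≃ₐ[K] L') (c : L') (hc : c ≠ 0) {x : Fin (n + 1) → L} {y : Fin (n + 1) → L'}
    (h : ∀ i, y i = c * σ (x i)) :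
    coordField K y = (coordField K x).map (σ : L →ₐ[K] L') := by
  rw [coordField, coordField, IntermediateField.adjoin_map]
  congr 1
  ext z
  constructor
  · rintro ⟨i, j, rfl⟩
    refine ⟨x i / x j, ⟨i, j, rfl⟩, ?_⟩
    rw [h, h, mul_div_mul_left _ _ hc]
    exact map_div₀ σ (x i) (x j)
  · rintro ⟨_, ⟨i, j, rfl⟩, rfl⟩
    refine ⟨i, j, ?_⟩
    rw [h, h, mul_div_mul_left _ _ hc]
    exact map_div₀ σ (x i) (x j)

theorem finrank_coordField {L L' : Type*} [Field L] [Algebra K L] [Field L'] [Algebra K L']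
    (σ : L ≃ₐ[K] L') (c : L') (hc : c ≠ 0) {x : Fin (n + 1) → L} {y : Fin (n + 1) → L'}
    (h : ∀ i, y i = c * σ (x i)) :
    Module.finrank (coordField K x) L = Module.finrank (coordField K y) L' := by
  rw [coordField_map σ c hc h]
  refine Algebra.finrank_eq_of_equiv_equiv
    (IntermediateField.intermediateFieldMap σ (coordField K x)).toRingEquiv σ.toRingEquiv ?_
  rfl

/-- The point of a curve with residue field `L` gives the same cycle for isomorphic `L` and for
proportional coordinates. -/
theorem ptCycle_congr (X : ProjVar K n r) {L L' : Type*} [Field L] [Algebra K L] [Field L']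
    [Algebra K L'] (σ : L ≃ₐ[K] L') (c : L') (hc : c ≠ 0) {x : Fin (n + 1) → L}
    {y : Fin (n + 1) → L'} (hx : X.IsPt x) (hy : X.IsPt y) (h : ∀ i, y i = c * σ (x i)) :
    ptCycle X x hx = ptCycle X y hy := by
  classical
  by_cases ha : Algebra.IsAlgebraic K L
  · have ha' : Algebra.IsAlgebraic K L' := σ.isAlgebraic_iff.1 ha
    rw [ptCycle, ptCycle, dif_pos ha, dif_pos ha', finrank_coordField σ c hc h]
    congr 1
    refine closedPt_eq_mk X hx
      ((IsAlgClosed.lift : L' →ₐ[K] AlgebraicClosure K).comp (σ : L →ₐ[K] L')) _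
      ((IsAlgClosed.lift : L' →ₐ[K] AlgebraicClosure K) c) ?_ (fun i => ?_)
    · exact (_root_.map_ne_zero _).2 hc
    · change (IsAlgClosed.lift : L' →ₐ[K] AlgebraicClosure K) (y i) = _
      rw [h i, map_mul]
      rfl
  · have ha' : ¬ Algebra.IsAlgebraic K L' := fun h' => ha (σ.isAlgebraic_iff.2 h')
    rw [ptCycle, ptCycle, dif_neg ha, dif_neg ha']

end congr

section red

variable {K E : Type u} [Field K] [Field E] [Algebra K E] {n r : ℕ}

/-- The value of a point at a place, computed with any coordinates which are integral and not all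
in the maximal ideal. -/
theorem red_eq (w : Place K E) (y : Fin (n + 1) → E) (hy : y ≠ 0) (g : E)
    (y' : Fin (n + 1) → w.A) (h : ∀ i, y i = g * (y' i : E)) (i₀ : Fin (n + 1))
    (hi₀ : IsUnit (y' i₀)) :
    ∃ c : w.res, c ≠ 0 ∧ ∀ i, red w y hy i = c * IsLocalRing.residue w.A (y' i) := by
  set j := (exists_max w y hy).choose with hj
  have hj1 : y j ≠ 0 := (exists_max w y hy).choose_spec.1
  have hj2 : ∀ i, y i / y j ∈ w.A := (exists_max w y hy).choose_spec.2
  have hg : g ≠ 0 := by
    rintro rfl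
    rw [h j, zero_mul] at hj1
    exact hj1 rfl
  have hu : IsUnit (y' j) := by
    have h1 : y' i₀ = ⟨y i₀ / y j, hj2 i₀⟩ * y' j := by
      apply Subtype.ext
      change (y' i₀ : E) = y i₀ / y j * (y' j : E)
      have hyj : (y' j : E) ≠ 0 := by
        intro h0; rw [h j, h0, mul_zero] at hj1; exact hj1 rfl
      rw [h i₀, h j, mul_div_mul_left _ _ hg, div_mul_cancel₀ _ hyj]
    rw [h1] at hi₀
    exact isUnit_of_mul_isUnit_right hi₀
  have hres : IsLocalRing.residue w.A (y' j) ≠ 0 := by
    rwa [IsLocalRing.residue_ne_zero_iff_isUnit]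
  refine ⟨(IsLocalRing.residue w.A (y' j))⁻¹, inv_ne_zero hres, fun i => ?_⟩
  have h1 : y' i = ⟨y i / y j, hj2 i⟩ * y' j := by
    apply Subtype.ext
    change (y' i : E) = y i / y j * (y' j : E)
    have hyj : (y' j : E) ≠ 0 := by
      intro h0; rw [h j, h0, mul_zero] at hj1; exact hj1 rfl
    rw [h i, h j, mul_div_mul_left _ _ hg, div_mul_cancel₀ _ hyj]
  have h2 := congrArg (IsLocalRing.residue w.A) h1
  rw [map_mul] at h2
  rw [h2, mul_comm, mul_assoc, mul_inv_cancel₀ hres, mul_one]
  rfl

end red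

section line

variable {K L E : Type u} [Field K] [Field L] [Field E] [Algebra K L] [Algebra L E] [Algebra K E]
  [IsScalarTower K L E] [Algebra.IsAlgebraic K L] {n r : ℕ}

/-- The value at `t = 0` of the point `x + t z`. -/
theorem ptCycle_red (X : ProjVar K n r) (w : Place K E) {t : E} (hw : w.A.valuation t < 1)
    (hadj : IntermediateField.adjoin L {t} = ⊤) (x z : Fin (n + 1) → L) (hx : X.IsPt x)
    (y : Fin (n + 1) → E) (hy : X.IsPt y) (g : E)
    (h : ∀ i, y i = g * (algebraMap L E (x i) + t * algebraMap L E (z i))) :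
    ptCycle X (red w y hy.1) (red_isPt X w y hy) = ptCycle X x hx := by
  obtain ⟨i₀, hi₀⟩ : ∃ i, x i ≠ 0 := by
    by_contra hcon
    push Not at hcon
    exact hx.1 (funext hcon)
  let y' : Fin (n + 1) → w.A := fun i =>
    Place.emL w (x i) + ⟨t, Place.t_mem w hw⟩ * Place.emL w (z i)
  have hres : ∀ i, IsLocalRing.residue w.A (y' i) = Place.emRes w (x i) := by
    intro i
    change IsLocalRing.residue w.A (_ + _ * _) = _
    rw [map_add, map_mul, Place.residue_t w hw, zero_mul, add_zero]
    rfl
  have hu : IsUnit (y' i₀) := by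
    rw [← IsLocalRing.residue_ne_zero_iff_isUnit, hres]
    exact (_root_.map_ne_zero _).2 hi₀
  obtain ⟨c, hc, h1⟩ := red_eq w y hy.1 g y' h i₀ hu
  refine (ptCycle_congr X (Place.resEquiv w hw hadj) c hc hx _ fun i => ?_).symm
  rw [h1 i, hres, Place.resEquiv_apply]

end line

section ratfunc

variable {K L : Type u} [Field K] [Field L] [Algebra K L]

theorem transcendental_X : Transcendental L (RatFunc.X : RatFunc L) := RatFunc.transcendental_X

theorem transcendental_X_inv : Transcendental L (RatFunc.X⁻¹ : RatFunc L) := by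
  intro h
  apply transcendental_X (L := L)
  have := h.inv
  rwa [inv_inv] at this

theorem adjoin_X_inv : IntermediateField.adjoin L {(RatFunc.X⁻¹ : RatFunc L)} = ⊤ := by
  rw [eq_top_iff, ← RatFunc.adjoin_X, IntermediateField.adjoin_simple_le_iff]
  have h : (RatFunc.X⁻¹ : RatFunc L) ∈ IntermediateField.adjoin L {(RatFunc.X⁻¹ : RatFunc L)} :=
    IntermediateField.mem_adjoin_simple_self _ _
  have := inv_mem h
  rwa [inv_inv] at this

theorem isCurveField_ratFunc [FiniteDimensional K L] : IsCurveField K (RatFunc L) := by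
  refine ⟨RatFunc.X, fun h => transcendental_X (L := L) (h.tower_top L), ?_⟩
  set F := IntermediateField.adjoin K {(RatFunc.X : RatFunc L)} with hF
  let b := Module.finBasis K L
  set S : Set (RatFunc L) := Set.range fun i => algebraMap L (RatFunc L) (b i) with hS
  have hfin : Finite S := Set.finite_range _
  have hint : ∀ a : L, IsIntegral F (algebraMap L (RatFunc L) a) := fun a =>
    ((Algebra.IsIntegral.isIntegral (R := K) a).algebraMap (B := RatFunc L)).tower_top
  have hfd : FiniteDimensional F (IntermediateField.adjoin F S) := by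
    apply IntermediateField.finiteDimensional_adjoin
    rintro _ ⟨i, rfl⟩
    exact hint _
  have hL : ∀ a : L, algebraMap L (RatFunc L) a ∈ IntermediateField.adjoin F S := by
    intro a
    rw [← b.sum_repr a, map_sum]
    refine sum_mem fun i _ => ?_
    rw [Algebra.smul_def, map_mul, ← IsScalarTower.algebraMap_apply K L (RatFunc L)]
    refine mul_mem ?_ (IntermediateField.subset_adjoin F S ⟨i, rfl⟩)
    exact (IntermediateField.adjoin F S).algebraMap_mem (algebraMap K F (b.repr a i))
  have hX : (RatFunc.X : RatFunc L) ∈ IntermediateField.adjoin F S :=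
    (IntermediateField.adjoin F S).algebraMap_mem
      ⟨RatFunc.X, IntermediateField.mem_adjoin_simple_self K _⟩
  have hp : ∀ p : Polynomial L, Polynomial.aeval (RatFunc.X : RatFunc L) p ∈
      IntermediateField.adjoin F S := by
    intro p
    rw [Polynomial.aeval_eq_sum_range]
    refine sum_mem fun i _ => ?_
    rw [Algebra.smul_def]
    exact mul_mem (hL _) (pow_mem hX i)
  have htop : IntermediateField.adjoin F S = ⊤ := by
    rw [eq_top_iff]
    rintro f -
    obtain ⟨p, q, -, -, rfl⟩ := exists_frac (L := L) RatFunc.adjoin_X f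
    exact div_mem (hp p) (hp q)
  rw [htop] at hfd
  exact Module.Finite.equiv (IntermediateField.topEquiv (F := F) (E := RatFunc L)).toLinearEquiv

/-- The points at `0` and `∞` of a parametrised line on `X` are rationally equivalent. -/
theorem line_equiv {n r : ℕ} [FiniteDimensional K L] (X : ProjVar K n r) (x z : Fin (n + 1) → L)
    (hx : X.IsPt x) (hz : X.IsPt z)
    (h : X.IsPt (fun i => RatFunc.C (x i) + RatFunc.X * RatFunc.C (z i) :
      Fin (n + 1) → RatFunc L)) :
    ptCycle X x hx - ptCycle X z hz ∈ ratEquiv X := by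
  classical
  refine AddSubgroup.subset_closure ⟨RatFunc L, inferInstance, inferInstance,
    isCurveField_ratFunc, _, h, RatFunc.X, RatFunc.X_ne_zero, ?_⟩
  let w0 : Place K (RatFunc L) := zeroPlace K (RatFunc.X : RatFunc L) transcendental_X
    RatFunc.adjoin_X
  let w1 : Place K (RatFunc L) := zeroPlace K (RatFunc.X⁻¹ : RatFunc L) transcendental_X_inv
    adjoin_X_inv
  have h0 : w0.A.valuation (RatFunc.X : RatFunc L) < 1 :=
    val_zeroPlace _ transcendental_X RatFunc.adjoin_X
  have h1 : w1.A.valuation (RatFunc.X⁻¹ : RatFunc L) < 1 :=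
    val_zeroPlace _ transcendental_X_inv adjoin_X_inv
  have hX0 : (RatFunc.X : RatFunc L) ≠ 0 := RatFunc.X_ne_zero
  have hne : w0 ≠ w1 := by
    intro hw
    rw [← hw, map_inv₀] at h1
    have h2 : 0 < w0.A.valuation (RatFunc.X : RatFunc L) :=
      zero_lt_iff.2 ((Valuation.ne_zero_iff _).2 hX0)
    exact absurd h0 (not_lt.2 ((inv_lt_one₀ h2).1 h1).le)
  have hsupp : ∀ w : Place K (RatFunc L), w ≠ w0 → w ≠ w1 → w.ord RatFunc.X = 0 := by
    intro w hw0 hw1
    rcases lt_trichotomy (w.A.valuation (RatFunc.X : RatFunc L)) 1 with hlt | heq | hgt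
    · exact absurd (Place.unique_zero RatFunc.adjoin_X w w0 hlt h0) hw0
    · exact Place.ord_of_unit w heq
    · refine absurd (Place.unique_zero adjoin_X_inv w w1 ?_ h1) hw1
      rw [map_inv₀]
      exact inv_lt_one_of_one_lt₀ hgt
  have e0 : w0.ord (RatFunc.X : RatFunc L) = 1 :=
    Place.ord_t w0 transcendental_X RatFunc.adjoin_X h0
  have e1 : w1.ord (RatFunc.X : RatFunc L) = -1 := by
    have := Place.ord_t_inv w1 transcendental_X_inv adjoin_X_inv h1
    rwa [inv_inv] at this
  have c0 : ptCycle X (red w0 _ h.1) (red_isPt X w0 _ h) = ptCycle X x hx :=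
    ptCycle_red X w0 h0 RatFunc.adjoin_X x z hx _ h 1 (fun i => by rw [one_mul]; rfl)
  have c1 : ptCycle X (red w1 _ h.1) (red_isPt X w1 _ h) = ptCycle X z hz :=
    ptCycle_red X w1 h1 adjoin_X_inv z x hz _ h RatFunc.X (fun i => by
      rw [mul_add, mul_inv_cancel_left₀ hX0, add_comm]; rfl)
  rw [curveCycle, finsum_eq_sum_of_support_subset (s := {w0, w1}), Finset.sum_pair hne, e0, e1,
    c0, c1, one_smul, neg_smul, one_smul, sub_eq_add_neg]
  intro w hw
  rw [Function.mem_support] at hw
  by_contra hcon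
  simp only [Finset.coe_insert, Finset.coe_singleton, Set.mem_insert_iff,
    Set.mem_singleton_iff, not_or] at hcon
  exact hw (by rw [hsupp w hcon.1 hcon.2, zero_smul])

end ratfunc

end ZC
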