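import Mathlib

/-!
# Zero-cycles on projective varieties given by forms

* `ProjVar K n r`: the projective variety `X` in `ℙⁿ` over the field `K` defined by `r` forms;
* `ClosedPoint X`: its closed points, i.e. the orbits of `Aut (K̄ / K)` on `X (K̄)`;
* `Place K E`: the places of a field extension `E / K`, with normalised valuation and degree;
* `CH0 X`: the Chow group of zero-cycles of `X`: zero-cycles modulo the push-forwards of the
  divisors of functions on normal projective curves with a morphism to `X`.  A normal projective
  curve with a morphism to `X` is the same as a function field `E / K` of one variable with a point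
  of `X (E)`; the closed points of the curve are the places of `E / K`;
* `C2 K`: Lang's property for systems of forms;
* `IsCompat`: elements of `lim G / m` given by representatives.
-/

set_option autoImplicit false

open MvPolynomial

namespace ZC

universe u

/-- Every system of forms of degrees `e i` in more than `∑ (e i) ^ 2` variables has a nontrivial
common zero. -/
def C2 (K : Type u) [Field K] : Prop :=
  ∀ (N r : ℕ) (e : Fin r → ℕ) (f : Fin r → MvPolynomial (Fin N) K),
    (∀ i, (f i).IsHomogeneous (e i)) → (∀ i, 0 < e i) → ∑ i, (e i) ^ 2 < N →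
      ∃ x : Fin N → K, x ≠ 0 ∧ ∀ i, eval x (f i) = 0

/-- A compatible family: an element of `lim G / m` given by representatives `z m` of its
components. -/
def IsCompat {G : Type*} [AddCommGroup G] (z : ℕ → G) : Prop :=
  ∀ m m' : ℕ, 0 < m → 0 < m' → m ∣ m' → ∃ g : G, z m' - z m = m • g

section varieties

variable {K : Type u} [Field K] {n r : ℕ}

/-- A projective variety in `ℙⁿ`, given by `r` forms over `K`. -/
structure ProjVar (K : Type u) [Field K] (n r : ℕ) where
  /-- the forms -/
  form : Fin r → MvPolynomial (Fin (n + 1)) K
  /-- their degrees -/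
  d : Fin r → ℕ
  hom : ∀ i, (form i).IsHomogeneous (d i)

/-- Base change of a projective variety. -/
noncomputable def ProjVar.map (X : ProjVar K n r) {L : Type u} [Field L] (φ : K →+* L) :
    ProjVar L n r where
  form i := MvPolynomial.map φ (X.form i)
  d := X.d
  hom i := (X.hom i).map φ

/-- `x` is a vector of homogeneous coordinates of a point of `X (L)`. -/
def ProjVar.IsPt (X : ProjVar K n r) {L : Type*} [Field L] [Algebra K L]
    (x : Fin (n + 1) → L) : Prop :=
  x ≠ 0 ∧ ∀ i, aeval x (X.form i) = 0

/-- The points of `X (K̄)` with homogeneous coordinates. -/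
def GPt (X : ProjVar K n r) : Type u := {x : Fin (n + 1) → AlgebraicClosure K // X.IsPt x}

/-- Two geometric points lie over the same closed point of `X`. -/
instance gSetoid (X : ProjVar K n r) : Setoid (GPt X) where
  r x y := ∃ (s : AlgebraicClosure K ≃ₐ[K] AlgebraicClosure K) (c : AlgebraicClosure K),
    c ≠ 0 ∧ ∀ i, y.1 i = c * s (x.1 i)
  iseqv := by
    constructor
    · exact fun x => ⟨AlgEquiv.refl, 1, one_ne_zero, fun i => by simp⟩
    · rintro x y ⟨s, c, hc, h⟩
      refine ⟨s.symm, s.symm c⁻¹, by simpa using hc, fun i => ?_⟩
      rw [h i, ← map_mul, inv_mul_cancel_left₀ hc, AlgEquiv.symm_apply_apply]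
    · rintro x y z ⟨s, c, hc, h⟩ ⟨s', c', hc', h'⟩
      refine ⟨s.trans s', c' * s' c, mul_ne_zero hc' (by simpa using hc), fun i => ?_⟩
      rw [h' i, h i, map_mul, AlgEquiv.trans_apply, mul_assoc]

/-- The closed points of `X`. -/
def ClosedPoint (X : ProjVar K n r) : Type u := Quotient (gSetoid X)

/-- The residue field of the point with homogeneous coordinates `x`: the field generated over `K`
by the quotients of the coordinates. -/
def coordField (K : Type u) [Field K] {n : ℕ} {L : Type*} [Field L] [Algebra K L]
    (x : Fin (n + 1) → L) : IntermediateField K L :=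
  IntermediateField.adjoin K {z | ∃ i j, z = x i / x j}

/-- The closed point of `X` under a point of `X` over an algebraic extension `L` of `K`. -/
noncomputable def closedPt (X : ProjVar K n r) {L : Type*} [Field L]
    [Algebra K L] [Algebra.IsAlgebraic K L] (x : Fin (n + 1) → L) (hx : X.IsPt x) :
    ClosedPoint X :=
  Quotient.mk (gSetoid X) ⟨fun i => (IsAlgClosed.lift : L →ₐ[K] AlgebraicClosure K) (x i), by
    refine ⟨fun h => hx.1 (funext fun i => ?_), fun i => ?_⟩
    · have h1 := congrFun h i
      simpa using h1
    · have h1 := hx.2 i
      have h2 : aeval (fun i => (IsAlgClosed.lift : L →ₐ[K] AlgebraicClosure K) (x i))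
          (X.form i) = (IsAlgClosed.lift : L →ₐ[K] AlgebraicClosure K) (aeval x (X.form i)) :=
        (comp_aeval_apply x _ (X.form i)).symm
      rw [h2, h1, map_zero]⟩

/-- The push-forward to `X` of the point `Spec L`, `L / K` finite: the closed point `P` under
`x ∈ X (L)` with the multiplicity `[L : K(P)]`. -/
noncomputable def ptCycle (X : ProjVar K n r) {L : Type*} [Field L] [Algebra K L]
    (x : Fin (n + 1) → L) (hx : X.IsPt x) : ClosedPoint X →₀ ℤ :=
  open Classical in
  if _ : Algebra.IsAlgebraic K L then
    Finsupp.single (closedPt X x hx) (Module.finrank (coordField K x) L : ℤ)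
  else 0

end varieties

section places

/-- A place of the extension `E / K`: a valuation ring of `E` which contains `K` and is not `E`. -/
structure Place (K E : Type u) [Field K] [Field E] [Algebra K E] where
  /-- the valuation ring -/
  A : ValuationSubring E
  ne_top : A ≠ ⊤
  mem : ∀ a : K, algebraMap K E a ∈ A

variable {K E : Type u} [Field K] [Field E] [Algebra K E]

namespace Place

theorem ext_A {v w : Place K E} (h : v.A = w.A) : v = w := by
  cases v; cases w; cases h; rfl

/-- The valuation ring of a place is a `K`-algebra. -/
noncomputable instance (w : Place K E) : Algebra K w.A :=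
  ((algebraMap K E).codRestrict w.A.toSubring w.mem).toAlgebra

/-- The residue field of a place. -/
abbrev res (w : Place K E) : Type u := IsLocalRing.ResidueField w.A

/-- The degree of a place. -/
noncomputable def deg (w : Place K E) : ℕ := Module.finrank K w.res

/-- `g` has the same absolute value as the `m`-th power of a uniformiser. -/
abbrev HasOrd (w : Place K E) (g : E) (m : ℤ) : Prop :=
  ∃ π : w.A, Irreducible π ∧ w.A.valuation g = w.A.valuation (π : E) ^ m

/-- The normalised valuation of a place: `ord g = m` if `g` has the same absolute value as the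
`m`-th power of a uniformiser. -/
noncomputable def ord (w : Place K E) (g : E) : ℤ :=
  open Classical in
  if h : ∃ m : ℤ, w.HasOrd g m then h.choose else 0

/-- The completion of `E` at a place. -/
def Completion (w : Place K E) : Type u := w.A.valuation.Completion

noncomputable instance (w : Place K E) : Field w.Completion :=
  (inferInstance : Field w.A.valuation.Completion)

/-- The embedding in its completion of the field `E` with the topology of the place. -/
noncomputable def embVal (w : Place K E) : WithVal w.A.valuation →+* w.Completion :=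
  (UniformSpace.Completion.coeRingHom : WithVal w.A.valuation →+* w.A.valuation.Completion)

/-- The embedding of `E` in its completion. -/
noncomputable def emb (w : Place K E) : E →+* w.Completion :=
  w.embVal.comp (WithVal.equiv w.A.valuation).symm.toRingHom

end Place

/-- `E` is a function field of one variable over `K`. -/
def IsCurveField (K E : Type u) [Field K] [Field E] [Algebra K E] : Prop :=
  ∃ t : E, Transcendental K t ∧ Module.Finite (IntermediateField.adjoin K {t}) E

end places

section reduction

variable {K E : Type u} [Field K] [Field E] [Algebra K E] {n r : ℕ}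

theorem exists_max (w : Place K E) (x : Fin (n + 1) → E) (hx : x ≠ 0) :
    ∃ j, x j ≠ 0 ∧ ∀ i, x i / x j ∈ w.A := by
  obtain ⟨j, -, hj⟩ := Finset.exists_max_image Finset.univ (fun i => w.A.valuation (x i))
    ⟨0, Finset.mem_univ _⟩
  have hj0 : x j ≠ 0 := by
    intro h
    apply hx
    funext i
    have h1 := hj i (Finset.mem_univ _)
    rw [h, map_zero, nonpos_iff_eq_zero, Valuation.zero_iff] at h1
    exact h1
  refine ⟨j, hj0, fun i => ?_⟩
  rw [← w.A.valuation_le_one_iff, map_div₀]
  have h0 : 0 < w.A.valuation (x j) := zero_lt_iff.2 ((Valuation.ne_zero_iff _).2 hj0)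
  rw [div_le_iff₀ h0, one_mul]
  exact hj i (Finset.mem_univ _)

/-- The value at the place `w` of the point with coordinates `x`: the coordinates are divided by
one of largest absolute value and reduced to the residue field. -/
noncomputable def red (w : Place K E) (x : Fin (n + 1) → E) (hx : x ≠ 0) (i : Fin (n + 1)) :
    w.res :=
  IsLocalRing.residue w.A ⟨x i / x (exists_max w x hx).choose,
    (exists_max w x hx).choose_spec.2 i⟩

theorem aeval_scale {K L : Type*} [Field K] [Field L] [Algebra K L] {n d : ℕ}
    {f : MvPolynomial (Fin n) K} (hf : f.IsHomogeneous d) (c : L) (x : Fin n → L) :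
    aeval (fun i => c * x i) f = c ^ d * aeval x f := by
  rw [aeval_def, aeval_def, eval₂_eq', eval₂_eq', Finset.mul_sum]
  refine Finset.sum_congr rfl fun m hm => ?_
  have hd : ∑ i, m i = d := by
    have h := hf (mem_support_iff.1 hm)
    rw [← h, Finsupp.weight_apply, Finsupp.sum_fintype _ _ (fun i => by simp)]
    simp
  have : ∏ i, (c * x i) ^ m i = c ^ d * ∏ i, x i ^ m i := by
    rw [← hd, ← Finset.prod_pow_eq_pow_sum, ← Finset.prod_mul_distrib]
    exact Finset.prod_congr rfl fun i _ => mul_pow _ _ _
  rw [this]
  ring

theorem red_isPt (X : ProjVar K n r) (w : Place K E) (x : Fin (n + 1) → E)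
    (hx : X.IsPt x) : X.IsPt (red w x hx.1) := by
  set j := (exists_max w x hx.1).choose with hj
  have hj1 : x j ≠ 0 := (exists_max w x hx.1).choose_spec.1
  have hj2 : ∀ i, x i / x j ∈ w.A := (exists_max w x hx.1).choose_spec.2
  refine ⟨fun h => ?_, fun i => ?_⟩
  · have h1 := congrFun h j
    simp only [red, Pi.zero_apply] at h1
    rw [IsLocalRing.residue_eq_zero_iff, IsLocalRing.mem_maximalIdeal, mem_nonunits_iff] at h1
    apply h1
    have : (⟨x j / x j, hj2 j⟩ : w.A) = 1 := Subtype.ext (div_self hj1)
    rw [this]
    exact isUnit_one
  · have h1 : aeval (fun i => (⟨x i / x j, hj2 i⟩ : w.A)) (X.form i) = 0 := by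
      have hinj : Function.Injective (algebraMap w.A E) := Subtype.val_injective
      apply hinj
      rw [map_zero]
      have h2 : algebraMap w.A E (aeval (fun i => (⟨x i / x j, hj2 i⟩ : w.A)) (X.form i)) =
          aeval (fun i => x i / x j) (X.form i) := by
        have : IsScalarTower K w.A E := IsScalarTower.of_algebraMap_eq fun a => rfl
        rw [← MvPolynomial.aeval_algebraMap_apply]
        rfl
      rw [h2]
      have h3 : (fun i => x i / x j) = fun i => (x j)⁻¹ * x i := by
        funext i; rw [div_eq_inv_mul]
      rw [h3, aeval_scale (X.hom i), hx.2 i, mul_zero]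
    have h5 : aeval (red w x hx.1) (X.form i) =
        algebraMap w.A w.res (aeval (fun i => (⟨x i / x j, hj2 i⟩ : w.A)) (X.form i)) := by
      rw [← MvPolynomial.aeval_algebraMap_apply]
      rfl
    rw [h5, h1, map_zero]

end reduction

section chow

variable {K : Type u} [Field K] {n r : ℕ}

/-- The push-forward to `X` of the divisor of the function `g` on the normal projective curve with
function field `E`, under the morphism to `X` given by the point `x ∈ X (E)`. -/
noncomputable def curveCycle (X : ProjVar K n r) {E : Type u} [Field E] [Algebra K E]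
    (x : Fin (n + 1) → E) (hx : X.IsPt x) (g : E) : ClosedPoint X →₀ ℤ :=
  ∑ᶠ w : Place K E, w.ord g • ptCycle X (red w x hx.1) (red_isPt X w x hx)

/-- The zero-cycles rationally equivalent to zero. -/
noncomputable def ratEquiv (X : ProjVar K n r) : AddSubgroup (ClosedPoint X →₀ ℤ) :=
  AddSubgroup.closure {c | ∃ (E : Type u) (_ : Field E) (_ : Algebra K E),
    IsCurveField K E ∧ ∃ (x : Fin (n + 1) → E) (hx : X.IsPt x) (g : E), g ≠ 0 ∧
      c = curveCycle X x hx g}

/-- The Chow group of zero-cycles of `X`. -/
def CH0 (X : ProjVar K n r) : Type u := (ClosedPoint X →₀ ℤ) ⧸ ratEquiv X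

noncomputable instance (X : ProjVar K n r) : AddCommGroup (CH0 X) :=
  (inferInstance : AddCommGroup ((ClosedPoint X →₀ ℤ) ⧸ ratEquiv X))

/-- The class of a zero-cycle. -/
noncomputable def CH0.mk (X : ProjVar K n r) : (ClosedPoint X →₀ ℤ) →+ CH0 X :=
  QuotientAddGroup.mk' (ratEquiv X)

/-- The class of a rational point of `X`. -/
noncomputable def cls (X : ProjVar K n r) (x : Fin (n + 1) → K) (hx : X.IsPt x) : CH0 X :=
  CH0.mk X (Finsupp.single (closedPt X x hx) 1)

end chow

/-- The image of a rational point under a base change. -/
theorem isPt_map {K L : Type u} [Field K] [Field L] {n r : ℕ} (X : ProjVar K n r) (φ : K →+* L)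
    {x : Fin (n + 1) → K} (hx : X.IsPt x) : (X.map φ).IsPt (fun i => φ (x i)) := by
  refine ⟨fun h => hx.1 (funext fun i => ?_), fun i => ?_⟩
  · have h1 := congrFun h i
    simpa using h1
  · have h1 := hx.2 i
    have h2 : aeval (fun i => φ (x i)) ((X.map φ).form i) = φ (aeval x (X.form i)) := by
      have h3 := eval₂_comp_left φ (RingHom.id K) x (X.form i)
      rw [RingHom.comp_id] at h3
      simp only [ProjVar.map, aeval_def, Algebra.algebraMap_self]
      rw [eval₂_map, RingHom.id_comp]
      exact h3.symm
    rw [h2, h1, map_zero]

end ZC
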