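import Pool.Agent.Helper25.PC.ChowDeg
import Pool.Agent.Helper33.ZC.DegZ

/-! # The degree map on the Chow group of zero-cycles -/

set_option autoImplicit false

open MvPolynomial

namespace ZC

universe u

variable {K : Type u} [Field K] {n r : ℕ}

/-- Zero-cycles rationally equivalent to zero have degree zero. -/
theorem ratEquiv_le_ker (X : ProjVar K n r) : ratEquiv X ≤ (degZ X).ker := by
  rw [ratEquiv, AddSubgroup.closure_le]
  rintro c ⟨E, iF, iA, hE, x, hx, g, hg, rfl⟩
  exact degZ_curveCycle X (Place.finite_residue hE) x hx g (sum_ord_deg hE g hg).1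
    (sum_ord_deg hE g hg).2

/-- The degree map on the Chow group of zero-cycles. -/
noncomputable def CH0.deg (X : ProjVar K n r) : CH0 X →+ ℤ :=
  QuotientAddGroup.lift (ratEquiv X) (degZ X) (ratEquiv_le_ker X)

theorem CH0.deg_mk (X : ProjVar K n r) (c : ClosedPoint X →₀ ℤ) :
    CH0.deg X (CH0.mk X c) = degZ X c := rfl

theorem CH0.deg_cls (X : ProjVar K n r) (x : Fin (n + 1) → K) (hx : X.IsPt x) :
    CH0.deg X (cls X x hx) = 1 :=
  CH0.deg'_cls X (fun E _ _ hE => ⟨Place.finite_residue hE, fun g hg => sum_ord_deg hE g hg⟩) x hx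

end ZC
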