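import Pool.Agent.Helper72.ZC.Gen
import Pool.Agent.Helper72.ZC.DegMap
import Pool.Agent.Helper33.ZC.Loc
import Pool.Agent.Helper25.PC.Pic

/-! # The local-global complex for zero-cycles on varieties of low degree -/

set_option autoImplicit false

open MvPolynomial

namespace ZC

universe u

/-- `C2` is invariant under isomorphisms. -/
theorem C2.of_ringEquiv {K L : Type u} [Field K] [Field L] (e : K ≃+* L) (h : C2 K) : C2 L := by
  let _ : Algebra K L := e.toRingHom.toAlgebra
  have : FiniteDimensional K L := by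
    have h1 : Function.Surjective (algebraMap K L) := e.surjective
    exact Module.Finite.of_surjective (Algebra.linearMap K L) h1
  exact h.finite

/-- Function fields over finite fields are `C2`. -/
theorem IsCurveField.c2 {F k : Type u} [Field F] [Finite F] [Field k] [Algebra F k]
    (hk : IsCurveField F k) : C2 k := by
  obtain ⟨t, ht, hfin⟩ := hk
  have h1 : C2 (IntermediateField.adjoin F {t}) :=
    C2.of_ringEquiv (RatFunc.algEquivOfTranscendental t ht).toRingEquiv (C2.ratFunc F)
  exact h1.finite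

variable {F k : Type u} [Field F] [Field k] [Algebra F k]

/-- The completions of a function field over a finite field are `C2`. -/
theorem Place.c2 [Finite F] (hk : IsCurveField F k) (v : Place F k) : C2 v.Completion := by
  have h1 := v.isDVR hk
  have h2 : Finite (IsLocalRing.ResidueField v.A) := v.finite_res hk
  exact hk.c2.completion v.A v.ne_top

theorem sum_sq_le {n r : ℕ} (d : Fin r → ℕ) (hd : ∀ i, 0 < d i)
    (hn : ∑ i, d i * (2 * d i ^ 2 + 1) ≤ 3 * n) : ∑ i, d i ^ 2 ≤ n := by
  have h1 : ∀ i, 3 * d i ^ 2 ≤ d i * (2 * d i ^ 2 + 1) := by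
    intro i
    obtain ⟨m, hm⟩ : ∃ m, d i = m + 1 := ⟨d i - 1, by have := hd i; omega⟩
    rw [hm]
    nlinarith [Nat.zero_le m, sq_nonneg m]
  have h2 : 3 * ∑ i, d i ^ 2 ≤ 3 * n := by
    rw [Finset.mul_sum]
    exact (Finset.sum_le_sum fun i _ => h1 i).trans hn
  omega

theorem coe_addCircle_eq_zero {q : ℚ} (h : (q : AddCircle (1 : ℚ)) = 0) : ∃ a : ℤ, q = a := by
  rw [AddCircle.coe_eq_zero_iff] at h
  obtain ⟨a, ha⟩ := h
  exact ⟨a, by rw [← ha]; simp⟩

/-- The sum over the places of an expression vanishing outside two places. -/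
theorem finsum_two {M : Type*} [AddCommMonoid M] {ι : Type*} (f : ι → M) (v w : ι) (hvw : v ≠ w)
    (h : ∀ u, u ≠ v → u ≠ w → f u = 0) : ∑ᶠ u, f u = f v + f w := by
  classical
  rw [finsum_eq_sum_of_support_subset (s := {v, w}), Finset.sum_pair hvw]
  intro u hu
  by_contra hcon
  simp only [Finset.coe_insert, Finset.coe_singleton, Set.mem_insert_iff,
    Set.mem_singleton_iff, not_or] at hcon
  exact hu (h u hcon.1 hcon.2)

/-- The value at the zero-cycle class `z` on `X` over `k_v` of the constant Brauer class given by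
the cyclic algebra of `f` in `k` and the constant extension of degree `m` of `k`: the degree of `z`
times the local invariant `ord_v f * deg v / m` in `ℚ / ℤ`. -/
noncomputable def constPairing (v : Place F k) {n r : ℕ} {X : ProjVar v.Completion n r}
    (z : CH0 X) (f : k) (m : ℕ) : AddCircle (1 : ℚ) :=
  ((CH0.deg X z * (v.ord f * v.deg / m) : ℚ) : AddCircle (1 : ℚ))

theorem exists_two_places [Finite F] (hk : IsCurveField F k) : ∃ v w : Place F k, v ≠ w := by
  obtain ⟨t, ht, -⟩ := hk
  have ht0 : t ≠ 0 := fun h0 => ht (by rw [h0]; exact isAlgebraic_zero)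
  have ht' : Transcendental F t⁻¹ := fun h => ht (by have := h.inv; rwa [inv_inv] at this)
  obtain ⟨A, hA, hA1⟩ := PCl.exists_place (F := F) ht
  obtain ⟨B, hB, hB1⟩ := PCl.exists_place (F := F) ht'
  refine ⟨⟨A, hA, PCl.F_mem A⟩, ⟨B, hB, PCl.F_mem B⟩, fun h => ?_⟩
  have hAB : A = B := congrArg Place.A h
  rw [inv_inv] at hB1
  rw [← hAB] at hB1
  rw [ValuationSubring.mem_nonunits_iff] at hA1 hB1
  rw [map_inv₀] at hA1
  have h2 : 0 < A.valuation t := zero_lt_iff.2 ((Valuation.ne_zero_iff _).2 ht0)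
  exact absurd hB1 (not_lt.2 ((inv_lt_one₀ h2).1 hA1).le)

/-- The arithmetic part: integers `c v m` such that the sums over the places
`∑ c v m * ord_v f * deg v` are divisible by `m` do not depend on `v` modulo `m`. -/
theorem arith [Finite F] (hk : IsCurveField F k) (c : Place F k → ℕ → ℤ)
    (hc : ∀ v, IsCompat (c v))
    (horth : ∀ (f : k) (m : ℕ), f ≠ 0 → 0 < m →
      ∑ᶠ v : Place F k, ((c v m * (v.ord f * v.deg / m) : ℚ) : AddCircle (1 : ℚ)) = 0)
    (v w : Place F k) (m : ℕ) (hm : 0 < m) : (m : ℤ) ∣ c v m - c w m := by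
  by_cases hvw : v = w
  · rw [hvw, sub_self]; exact dvd_zero _
  obtain ⟨h, f, hh, hf, hv, hw, hu⟩ := pic hk v w hvw
  have hdv := v.deg_pos hk
  have hdw := w.deg_pos hk
  set D : ℕ := h * w.deg * v.deg with hD
  have hD0 : 0 < D := by rw [hD]; positivity
  have hM : 0 < m * D := by positivity
  have h1 := horth f (m * D) hf hM
  have h2 : (m : ℤ) ∣ c v (m * D) - c w (m * D) := by
    rw [finsum_two _ v w hvw] at h1
    · rw [← AddCircle.coe_add] at h1
      obtain ⟨b, hb⟩ := coe_addCircle_eq_zero h1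
      refine ⟨b, ?_⟩
      rw [hv, hw] at hb
      have hmq : (m : ℚ) ≠ 0 := by positivity
      have hDq : (D : ℚ) ≠ 0 := by positivity
      have hDq2 : (D : ℚ) = h * w.deg * v.deg := by rw [hD]; push_cast; ring
      have : ((c v (m * D) : ℚ) - c w (m * D)) * D = m * b * D := by
        push_cast at hb
        field_simp at hb
        rw [hDq2] at hb ⊢
        linear_combination hb
      have h3 := mul_right_cancel₀ hDq this
      exact_mod_cast h3
    · intro u huv huw
      rw [hu u huv huw]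
      simp
  obtain ⟨a, ha⟩ := hc v m (m * D) hm hM (dvd_mul_right _ _)
  obtain ⟨b, hb⟩ := hc w m (m * D) hm hM (dvd_mul_right _ _)
  rw [nsmul_eq_mul] at ha hb
  have : c v m - c w m = (c v (m * D) - c w (m * D)) - m * a + m * b := by
    rw [← ha, ← hb]; ring
  rw [this]
  exact dvd_add (dvd_sub h2 (dvd_mul_right _ _)) (dvd_mul_right _ _)

/-- Orthogonal families are global if the Chow groups of zero-cycles over the completions are
generated by the class of a global point. -/
theorem main_of_gen [Finite F] (hk : IsCurveField F k) {n r : ℕ} (X : ProjVar k n r)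
    (x : Fin (n + 1) → k) (hx : X.IsPt x)
    (hgen : ∀ (v : Place F k) (c : CH0 (X.map v.emb)),
      ∃ m : ℤ, c = m • cls (X.map v.emb) (fun i => v.emb (x i)) (isPt_map X v.emb hx))
    (z : ∀ v : Place F k, ℕ → CH0 (X.map v.emb)) (hz : ∀ v, IsCompat (z v))
    (horth : ∀ (f : k) (m : ℕ), f ≠ 0 → 0 < m →
      ∑ᶠ v : Place F k, constPairing v (z v m) f m = 0) :
    ∃ c : ℕ → ℤ, IsCompat c ∧ ∀ (v : Place F k) (m : ℕ), 0 < m →
      ∃ g, c m • cls (X.map v.emb) (fun i => v.emb (x i)) (isPt_map X v.emb hx) - z v m =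
        m • g := by
  classical
  set P : ∀ v : Place F k, CH0 (X.map v.emb) := fun v =>
    cls (X.map v.emb) (fun i => v.emb (x i)) (isPt_map X v.emb hx) with hP
  have hgen' : ∀ (v : Place F k) (c : CH0 (X.map v.emb)), c = CH0.deg _ c • P v := by
    intro v c
    obtain ⟨m, rfl⟩ := hgen v c
    rw [map_zsmul, CH0.deg_cls, smul_eq_mul, mul_one]
  set c : Place F k → ℕ → ℤ := fun v m => CH0.deg _ (z v m) with hc
  have hcc : ∀ v, IsCompat (c v) := by
    intro v m m' hm hm' hmm
    obtain ⟨g, hg⟩ := hz v m m' hm hm' hmm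
    exact ⟨CH0.deg _ g, by rw [hc]; simp only; rw [← map_sub, hg, map_nsmul]⟩
  have key := arith hk c hcc horth
  obtain ⟨v₁, v₂, -⟩ := exists_two_places hk
  refine ⟨c v₁, hcc v₁, fun v m hm => ?_⟩
  obtain ⟨e, he⟩ := key v₁ v m hm
  refine ⟨e • P v, ?_⟩
  conv_lhs => rw [hgen' v (z v m)]
  change c v₁ m • P v - c v m • P v = _
  rw [sub_eq_add_neg, ← sub_zsmul, he, mul_zsmul, natCast_zsmul]

theorem main [Finite F] (hk : IsCurveField F k) {n r : ℕ} (X : ProjVar k n r)
    (hd : ∀ i, 0 < X.d i) (hn : ∑ i, X.d i * (2 * X.d i ^ 2 + 1) ≤ 3 * n) :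
    ∃ (x : Fin (n + 1) → k) (hx : X.IsPt x), ∀ z : ∀ v : Place F k, ℕ → CH0 (X.map v.emb),
      (∀ v, IsCompat (z v)) →
      (∀ (f : k) (m : ℕ), f ≠ 0 → 0 < m → ∑ᶠ v : Place F k, constPairing v (z v m) f m = 0) →
      ∃ c : ℕ → ℤ, IsCompat c ∧ ∀ (v : Place F k) (m : ℕ), 0 < m →
        ∃ g, c m • cls (X.map v.emb) (fun i => v.emb (x i)) (isPt_map X v.emb hx) - z v m =
          m • g := by
  obtain ⟨x, hx⟩ := exists_point hk.c2 X hd (sum_sq_le X.d hd hn)
  exact ⟨x, hx, fun z hz horth => main_of_gen hk X x hx (fun v c =>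
    CH0_gen (fun L _ _ hL => (v.c2 hk).finite) (X.map v.emb) hn _ _ c) z hz horth⟩

end ZC
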