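import Pool.Agent.Helper72.ZC.Ord

/-! # The place `t = 0` of the rational function field `L(t)` -/

set_option autoImplicit false

open Polynomial

namespace ZC

universe u

section frac

variable {L E : Type*} [Field L] [Field E] [Algebra L E]

theorem exists_frac {t : E} (hadj : IntermediateField.adjoin L {t} = ⊤)
    (f : E) :
    ∃ p q : L[X], IsCoprime p q ∧ aeval t q ≠ 0 ∧ f = aeval t p / aeval t q := by
  classical
  have hf : f ∈ IntermediateField.adjoin L {t} := by rw [hadj]; trivial
  rw [IntermediateField.mem_adjoin_simple_iff] at hf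
  obtain ⟨r, s, rfl⟩ := hf
  by_cases hs : aeval t s = 0
  · exact ⟨0, 1, isCoprime_one_right, by simp, by simp [hs]⟩
  · have hs0 : s ≠ 0 := by rintro rfl; exact hs (map_zero _)
    set d := EuclideanDomain.gcd r s with hd
    have hd0 : d ≠ 0 := by
      intro h
      rw [hd, EuclideanDomain.gcd_eq_zero_iff] at h
      exact hs0 h.2
    obtain ⟨r', hr'⟩ := EuclideanDomain.gcd_dvd_left r s
    obtain ⟨s', hs'⟩ := EuclideanDomain.gcd_dvd_right r s
    rw [← hd] at hr' hs'
    have hcop : IsCoprime r' s' := by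
      have h1 := EuclideanDomain.gcd_eq_gcd_ab r s
      rw [← hd] at h1
      refine ⟨EuclideanDomain.gcdA r s, EuclideanDomain.gcdB r s, ?_⟩
      apply mul_left_cancel₀ hd0
      calc d * (EuclideanDomain.gcdA r s * r' + EuclideanDomain.gcdB r s * s')
          = (d * r') * EuclideanDomain.gcdA r s + (d * s') * EuclideanDomain.gcdB r s := by ring
        _ = r * EuclideanDomain.gcdA r s + s * EuclideanDomain.gcdB r s := by rw [← hr', ← hs']
        _ = d * 1 := by rw [← h1, mul_one]
    have h3 : aeval t s = aeval t d * aeval t s' := by rw [← map_mul, ← hs']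
    have h4 : aeval t r = aeval t d * aeval t r' := by rw [← map_mul, ← hr']
    have h5 : aeval t d ≠ 0 := by
      intro h; rw [h3, h, zero_mul] at hs; exact hs rfl
    have h6 : aeval t s' ≠ 0 := by
      intro h; rw [h3, h, mul_zero] at hs; exact hs rfl
    refine ⟨r', s', hcop, h6, ?_⟩
    rw [h3, h4, mul_div_mul_left _ _ h5]

/-- The valuation ring of the place `t = 0`. -/
def zeroRing (t : E) (ht : Transcendental L t) (hadj : IntermediateField.adjoin L {t} = ⊤) :
    ValuationSubring E where
  carrier := {f | ∃ p q : L[X], q.coeff 0 ≠ 0 ∧ f = aeval t p / aeval t q}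
  mul_mem' := by
    rintro _ _ ⟨p, q, hq, rfl⟩ ⟨p', q', hq', rfl⟩
    exact ⟨p * p', q * q', by simpa [mul_coeff_zero] using ⟨hq, hq'⟩,
      by rw [map_mul, map_mul, div_mul_div_comm]⟩
  one_mem' := ⟨1, 1, by simp, by simp⟩
  add_mem' := by
    rintro _ _ ⟨p, q, hq, rfl⟩ ⟨p', q', hq', rfl⟩
    have h1 : aeval t q ≠ 0 := by
      intro h; exact hq (by rw [(transcendental_iff.1 ht) q h, coeff_zero])
    have h2 : aeval t q' ≠ 0 := by
      intro h; exact hq' (by rw [(transcendental_iff.1 ht) q' h, coeff_zero])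
    exact ⟨p * q' + q * p', q * q', by simpa [mul_coeff_zero] using ⟨hq, hq'⟩,
      by rw [map_add, map_mul, map_mul, map_mul, div_add_div _ _ h1 h2]⟩
  zero_mem' := ⟨0, 1, by simp, by simp⟩
  neg_mem' := by
    rintro _ ⟨p, q, hq, rfl⟩
    exact ⟨-p, q, hq, by rw [map_neg, neg_div]⟩
  mem_or_inv_mem' := by
    intro f
    obtain ⟨p, q, ⟨a, b, hab⟩, hq, rfl⟩ := exists_frac hadj f
    by_cases h : q.coeff 0 = 0
    · right
      refine ⟨q, p, fun h' => ?_, by rw [inv_div]⟩
      have := congrArg (fun r => coeff r 0) hab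
      simp [mul_coeff_zero, h, h'] at this
    · left
      exact ⟨p, q, h, rfl⟩

theorem inv_notMem_zeroRing (t : E) (ht : Transcendental L t)
    (hadj : IntermediateField.adjoin L {t} = ⊤) : t⁻¹ ∉ zeroRing t ht hadj := by
  rintro ⟨p, q, hq, h⟩
  have ht0 : t ≠ 0 := fun h0 => ht (by rw [h0]; exact isAlgebraic_zero)
  have h1 : aeval t q ≠ 0 := by
    intro h; exact hq (by rw [(transcendental_iff.1 ht) q h, coeff_zero])
  rw [eq_div_iff h1, inv_mul_eq_iff_eq_mul₀ ht0] at h
  have h2 : aeval t (q - X * p) = 0 := by rw [map_sub, map_mul, aeval_X, h, sub_self]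
  have h3 := (transcendental_iff.1 ht) _ h2
  apply hq
  rw [sub_eq_zero.1 h3]
  simp

end frac

section zero

variable {K L E : Type u} [Field K] [Field L] [Field E] [Algebra K L] [Algebra L E] [Algebra K E]
  [IsScalarTower K L E] [Algebra.IsAlgebraic K L]

/-- The place `t = 0`. -/
def zeroPlace (K : Type u) {L E : Type u} [Field K] [Field L] [Field E] [Algebra K L] [Algebra L E]
    [Algebra K E] [IsScalarTower K L E] (t : E) (ht : Transcendental L t)
    (hadj : IntermediateField.adjoin L {t} = ⊤) : Place K E where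
  A := zeroRing t ht hadj
  ne_top := fun h => inv_notMem_zeroRing t ht hadj (by rw [h]; trivial)
  mem := fun a => ⟨C (algebraMap K L a), 1, by simp, by
    rw [map_one, div_one, aeval_C, ← IsScalarTower.algebraMap_apply K L E]⟩

omit [Algebra.IsAlgebraic K L] in
theorem val_zeroPlace (t : E) (ht : Transcendental L t)
    (hadj : IntermediateField.adjoin L {t} = ⊤) :
    (zeroPlace K t ht hadj).A.valuation t < 1 := by
  have h1 : ¬ ((zeroPlace K t ht hadj).A.valuation t⁻¹ ≤ 1) := by
    rw [ValuationSubring.valuation_le_one_iff]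
    exact inv_notMem_zeroRing t ht hadj
  have ht0 : t ≠ 0 := fun h0 => ht (by rw [h0]; exact isAlgebraic_zero)
  rw [map_inv₀, not_le] at h1
  exact (one_lt_inv₀ (zero_lt_iff.2 ((Valuation.ne_zero_iff _).2 ht0))).1 h1

namespace Place

theorem mem_of_algebraic (w : Place K E) (a : L) : algebraMap L E a ∈ w.A := by
  have : IsScalarTower K w.A E := IsScalarTower.of_algebraMap_eq fun a => rfl
  have h1 : IsIntegral K (algebraMap L E a) :=
    (Algebra.IsAlgebraic.isAlgebraic (R := K) a).isIntegral.algebraMap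
  have h2 : IsIntegral w.A (algebraMap L E a) := h1.tower_top
  obtain ⟨y, hy⟩ := IsIntegrallyClosed.isIntegral_iff.1 h2
  rw [← hy]
  exact y.2

/-- The embedding of `L` in the valuation ring. -/
def emL (w : Place K E) : L →+* w.A :=
  (algebraMap L E).codRestrict w.A.toSubring (mem_of_algebraic w)

/-- The embedding of `L` in the residue field. -/
noncomputable def emRes (w : Place K E) : L →ₐ[K] w.res where
  toRingHom := (IsLocalRing.residue w.A).comp (emL (L := L) w)
  commutes' a := by
    have : emL (L := L) w (algebraMap K L a) = algebraMap K w.A a :=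
      Subtype.ext (IsScalarTower.algebraMap_apply K L E a).symm
    change IsLocalRing.residue w.A (emL (L := L) w (algebraMap K L a)) = _
    rw [this]
    rfl

theorem emRes_apply (w : Place K E) (a : L) :
    emRes w a = IsLocalRing.residue w.A (emL (L := L) w a) := rfl

variable {t : E} (w : Place K E) (hw : w.A.valuation t < 1)

include hw in
theorem t_mem : t ∈ w.A := (w.A.valuation_le_one_iff t).1 hw.le

include hw in
theorem aeval_mem (p : L[X]) : aeval t p ∈ w.A := by
  rw [aeval_eq_sum_range]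
  refine Subring.sum_mem w.A.toSubring fun i _ => ?_
  rw [Algebra.smul_def]
  exact w.A.mul_mem _ _ (mem_of_algebraic w _) (pow_mem (t_mem w hw) i)

theorem residue_t : IsLocalRing.residue w.A ⟨t, t_mem w hw⟩ = 0 := by
  rw [IsLocalRing.residue_eq_zero_iff]
  exact (ValuationSubring.valuation_lt_one_iff w.A _).2 hw

theorem residue_aeval (p : L[X]) :
    IsLocalRing.residue w.A ⟨aeval t p, aeval_mem w hw p⟩ = emRes w (p.coeff 0) := by
  have h1 : (⟨aeval t p, aeval_mem w hw p⟩ : w.A) =
      emL (L := L) w (p.coeff 0) + ⟨t, t_mem w hw⟩ * ⟨aeval t p.divX, aeval_mem w hw _⟩ := by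
    apply Subtype.ext
    change aeval t p = algebraMap L E (p.coeff 0) + t * aeval t p.divX
    conv_lhs => rw [← divX_mul_X_add p]
    rw [map_add, map_mul, aeval_X, aeval_C]
    ring
  rw [h1, map_add, map_mul, residue_t w hw, zero_mul, add_zero]
  rfl

include hw in
theorem val_aeval_eq_one (p : L[X]) (hp : p.coeff 0 ≠ 0) : w.A.valuation (aeval t p) = 1 := by
  have h1 : IsUnit (⟨aeval t p, aeval_mem w hw p⟩ : w.A) := by
    rw [← IsLocalRing.residue_ne_zero_iff_isUnit, residue_aeval w hw]
    exact (_root_.map_ne_zero _).2 hp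
  exact (ValuationSubring.valuation_eq_one_iff w.A _).1 h1

include hw in
theorem val_aeval_lt_one (p : L[X]) (hp : p.coeff 0 = 0) : w.A.valuation (aeval t p) < 1 := by
  have h1 : IsLocalRing.residue w.A ⟨aeval t p, aeval_mem w hw p⟩ = 0 := by
    rw [residue_aeval w hw, hp, map_zero]
  rw [IsLocalRing.residue_eq_zero_iff] at h1
  exact (ValuationSubring.valuation_lt_one_iff w.A _).1 h1

include hw in
theorem mem_iff {p q : L[X]} (hpq : IsCoprime p q) (hq : aeval t q ≠ 0) :
    aeval t p / aeval t q ∈ w.A ↔ q.coeff 0 ≠ 0 := by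
  constructor
  · intro h h0
    have hp : p.coeff 0 ≠ 0 := by
      intro h'
      obtain ⟨a, b, hab⟩ := hpq
      have := congrArg (fun r => coeff r 0) hab
      simp [mul_coeff_zero, h0, h'] at this
    rw [← ValuationSubring.valuation_le_one_iff, map_div₀, val_aeval_eq_one w hw p hp,
      one_div] at h
    have h2 := val_aeval_lt_one w hw q h0
    have h3 : 0 < w.A.valuation (aeval t q) := zero_lt_iff.2 ((Valuation.ne_zero_iff _).2 hq)
    exact absurd h (not_le.2 ((one_lt_inv₀ h3).2 h2))
  · intro h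
    rw [← ValuationSubring.valuation_le_one_iff, map_div₀, val_aeval_eq_one w hw q h, div_one]
    exact (w.A.valuation_le_one_iff _).2 (aeval_mem w hw p)

/-- There is only one place with `t = 0`. -/
theorem unique_zero (hadj : IntermediateField.adjoin L {t} = ⊤) (w w' : Place K E)
    (hw : w.A.valuation t < 1) (hw' : w'.A.valuation t < 1) : w = w' := by
  apply Place.ext_A
  ext f
  obtain ⟨p, q, hpq, hq, rfl⟩ := exists_frac hadj f
  rw [mem_iff w hw hpq hq, mem_iff w' hw' hpq hq]

include hw in
theorem emRes_bijective (hadj : IntermediateField.adjoin L {t} = ⊤) :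
    Function.Bijective (emRes (L := L) w) := by
  refine ⟨(emRes (L := L) w).injective, fun y => ?_⟩
  obtain ⟨⟨f, hf⟩, rfl⟩ := IsLocalRing.residue_surjective y
  obtain ⟨p, q, hpq, hq, rfl⟩ := exists_frac hadj f
  have h0 := (mem_iff w hw hpq hq).1 hf
  refine ⟨p.coeff 0 / q.coeff 0, ?_⟩
  have h1 : (⟨aeval t p / aeval t q, hf⟩ : w.A) * ⟨aeval t q, aeval_mem w hw q⟩ =
      ⟨aeval t p, aeval_mem w hw p⟩ := Subtype.ext (div_mul_cancel₀ _ hq)
  have h2 := congrArg (IsLocalRing.residue w.A) h1
  rw [map_mul, residue_aeval w hw, residue_aeval w hw] at h2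
  rw [map_div₀, ← h2, mul_div_cancel_right₀]
  exact (_root_.map_ne_zero _).2 h0

/-- The residue field of the place `t = 0` is `L`. -/
noncomputable def resEquiv (hadj : IntermediateField.adjoin L {t} = ⊤) : L ≃ₐ[K] w.res :=
  AlgEquiv.ofBijective (emRes w) (emRes_bijective w hw hadj)

theorem resEquiv_apply (hadj : IntermediateField.adjoin L {t} = ⊤) (a : L) :
    resEquiv w hw hadj a = emRes w a := rfl

theorem irreducible_t (ht : Transcendental L t) (hadj : IntermediateField.adjoin L {t} = ⊤) :
    Irreducible (⟨t, t_mem w hw⟩ : w.A) := by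
  have ht0 : t ≠ 0 := fun h0 => ht (by rw [h0]; exact isAlgebraic_zero)
  have hnu : ¬ IsUnit (⟨t, t_mem w hw⟩ : w.A) := by
    rw [← IsLocalRing.residue_ne_zero_iff_isUnit, residue_t w hw, not_not]
  have hdvd : ∀ a : w.A, ¬ IsUnit a → (⟨t, t_mem w hw⟩ : w.A) ∣ a := by
    rintro ⟨f, hf⟩ ha
    obtain ⟨p, q, hpq, hq, rfl⟩ := exists_frac hadj f
    have h0 := (mem_iff w hw hpq hq).1 hf
    have hp : p.coeff 0 = 0 := by
      by_contra hp
      apply ha
      refine (ValuationSubring.valuation_eq_one_iff w.A _).2 ?_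
      change w.A.valuation (aeval t p / aeval t q) = 1
      rw [map_div₀, val_aeval_eq_one w hw p hp, val_aeval_eq_one w hw q h0, div_one]
    have h1 : aeval t p.divX / aeval t q ∈ w.A := by
      rw [← ValuationSubring.valuation_le_one_iff, map_div₀, val_aeval_eq_one w hw q h0, div_one]
      exact (w.A.valuation_le_one_iff _).2 (aeval_mem w hw _)
    refine ⟨⟨_, h1⟩, Subtype.ext ?_⟩
    change aeval t p / aeval t q = t * (aeval t p.divX / aeval t q)
    rw [← mul_div_assoc]
    congr 1
    conv_lhs => rw [← divX_mul_X_add p]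
    rw [map_add, map_mul, aeval_X, aeval_C, hp, map_zero, add_zero, mul_comm]
  refine ⟨hnu, fun a b hab => ?_⟩
  by_contra hcon
  push Not at hcon
  obtain ⟨ha, hb⟩ := hcon
  obtain ⟨a', rfl⟩ := hdvd a ha
  obtain ⟨b', rfl⟩ := hdvd b hb
  apply hnu
  have hne : (⟨t, t_mem w hw⟩ : w.A) ≠ 0 := fun h => ht0 (congrArg Subtype.val h)
  have h1 : (⟨t, t_mem w hw⟩ : w.A) * 1 =
      ⟨t, t_mem w hw⟩ * (⟨t, t_mem w hw⟩ * (a' * b')) := by
    rw [mul_one]
    conv_lhs => rw [hab]
    ring
  exact IsUnit.of_mul_eq_one _ (mul_left_cancel₀ hne h1).symm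

theorem ord_t (ht : Transcendental L t) (hadj : IntermediateField.adjoin L {t} = ⊤)
    (hw : w.A.valuation t < 1) : w.ord t = 1 :=
  ord_of_irr w (irreducible_t w hw ht hadj) (by rw [zpow_one])

theorem ord_t_inv (ht : Transcendental L t) (hadj : IntermediateField.adjoin L {t} = ⊤)
    (hw : w.A.valuation t < 1) : w.ord t⁻¹ = -1 :=
  ord_of_irr w (irreducible_t w hw ht hadj) (by rw [map_inv₀, zpow_neg, zpow_one])

end Place

end zero

end ZC
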