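import Pool.Agent.Helper72.ZC.Defs

/-! # The normalised valuation of a place -/

set_option autoImplicit false

open MvPolynomial

namespace ZC

universe u

namespace Place

variable {K E : Type u} [Field K] [Field E] [Algebra K E]

theorem val_lt_one (w : Place K E) {π : w.A} (h : Irreducible π) :
    w.A.valuation (π : E) < 1 := by
  have h1 : π ∈ IsLocalRing.maximalIdeal w.A := by
    rw [IsLocalRing.mem_maximalIdeal, mem_nonunits_iff]; exact h.not_isUnit
  exact (ValuationSubring.valuation_lt_one_iff w.A π).1 h1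

theorem val_pos (w : Place K E) {π : w.A} (h : Irreducible π) :
    0 < w.A.valuation (π : E) := by
  rw [zero_lt_iff, Valuation.ne_zero_iff]
  exact fun h0 => h.ne_zero (Subtype.ext h0)

theorem val_irr (w : Place K E) {π π' : w.A} (h : Irreducible π) (h' : Irreducible π') :
    w.A.valuation (π : E) = w.A.valuation (π' : E) := by
  have key : ∀ {a b : w.A}, Irreducible a → Irreducible b → a ∣ b →
      w.A.valuation (a : E) = w.A.valuation (b : E) := by
    intro a b ha hb hab
    obtain ⟨c, hc⟩ := hab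
    have hcu : IsUnit c := (hb.isUnit_or_isUnit hc).resolve_left ha.not_isUnit
    have h1 : w.A.valuation (c : E) = 1 := by
      have := (ValuationSubring.valuation_eq_one_iff w.A c).1 hcu
      exact this
    rw [hc]
    simp [h1]
  rcases ValuationRing.dvd_total π π' with h1 | h1
  · exact key h h' h1
  · exact (key h' h h1).symm

theorem zpow_inj {G : Type*} [LinearOrderedCommGroupWithZero G] {a : G} (h0 : 0 < a) (h1 : a < 1)
    {m n : ℤ} (h : a ^ m = a ^ n) : m = n := by
  have hmono : StrictAnti fun n : ℤ => a ^ n := zpow_right_strictAnti₀ h0 h1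
  exact hmono.injective h

/-- The value of `ord`. -/
theorem ord_of_irr (w : Place K E) {π : w.A} (hπ : Irreducible π) {g : E} {m : ℤ}
    (h : w.A.valuation g = w.A.valuation (π : E) ^ m) : w.ord g = m := by
  classical
  have hex : ∃ m : ℤ, ∃ π : w.A, Irreducible π ∧
      w.A.valuation g = w.A.valuation (π : E) ^ m := ⟨m, π, hπ, h⟩
  rw [ord, dif_pos hex]
  obtain ⟨π', hπ', h'⟩ := hex.choose_spec
  have h2 : w.A.valuation (π : E) ^ m = w.A.valuation (π : E) ^ hex.choose :=
    h.symm.trans (h'.trans (congrArg (· ^ hex.choose) (val_irr w hπ' hπ)))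
  exact (zpow_inj (w.val_pos hπ) (w.val_lt_one hπ) h2).symm

theorem ord_of_unit (w : Place K E) {g : E} (h : w.A.valuation g = 1) : w.ord g = 0 := by
  classical
  by_cases hex : ∃ m : ℤ, ∃ π : w.A, Irreducible π ∧
      w.A.valuation g = w.A.valuation (π : E) ^ m
  · obtain ⟨-, π, hπ, -⟩ := hex
    exact ord_of_irr w hπ (by rw [h, zpow_zero])
  · rw [ord, dif_neg hex]

/-- In a discrete valuation ring every nonzero element has an order. -/
theorem ord_spec (w : Place K E) [IsDiscreteValuationRing w.A] {g : E} (hg : g ≠ 0) {π : w.A}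
    (hπ : Irreducible π) : w.A.valuation g = w.A.valuation (π : E) ^ (w.ord g) := by
  have key : ∀ a : w.A, a ≠ 0 → ∃ m : ℕ, w.A.valuation (a : E) = w.A.valuation (π : E) ^ m := by
    intro a ha
    obtain ⟨m, u, hu⟩ := IsDiscreteValuationRing.eq_unit_mul_pow_irreducible ha hπ
    refine ⟨m, ?_⟩
    have h1 : w.A.valuation ((u : w.A) : E) = 1 :=
      (ValuationSubring.valuation_eq_one_iff w.A (u : w.A)).1 u.isUnit
    rw [hu]
    simp [h1]
  have : ∃ m : ℤ, w.A.valuation g = w.A.valuation (π : E) ^ m := by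
    rcases w.A.mem_or_inv_mem g with h | h
    · obtain ⟨m, hm⟩ := key ⟨g, h⟩ (fun h0 => hg (congrArg Subtype.val h0))
      exact ⟨m, by rw [zpow_natCast]; exact hm⟩
    · obtain ⟨m, hm⟩ := key ⟨g⁻¹, h⟩ (fun h0 => inv_ne_zero hg (congrArg Subtype.val h0))
      refine ⟨-m, ?_⟩
      have h2 : w.A.valuation g⁻¹ = w.A.valuation (π : E) ^ m := hm
      rw [map_inv₀] at h2
      rw [zpow_neg, zpow_natCast, ← h2, inv_inv]
  obtain ⟨m, hm⟩ := this
  rw [ord_of_irr w hπ hm]
  exact hm

end Place

end ZC
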